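import Pool.Agent.L7h66.UA.Stm

set_option autoImplicit false

/-! # Project UA, part BLD: construction of a coherent model -/

namespace Pool.Agent.L7h45.UA

open Set Function Pool.Agent.L7h66.UA

theorem s_BLD (hBLL : S_BLL) : S_BLD := by
  intro T W P _ pc α h1 h2 h3 h4 h5
  have key : ∀ n, ∃ ψ : W ≃ ℕ, (∀ w, α n w ∈ T.D n → ψ w = α n w) ∧
      ∀ w, α n w ∉ T.D n → ∃ s ∈ T.S n, ∀ u, pc u = pc w → α n u ∈ T.B n (α n w) →
        ψ u = s (α n u) := fun n =>
    hBLL T n W P pc (α n) (h1 n) (h2 n) (h4 n) (h5 n)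
  choose φ hD hB using key
  refine ⟨φ, ?_, fun n w => hD n w, fun n w => hB n w⟩
  intro n
  refine ⟨(φ (n + 1)).symm.trans (φ n), ?_, fun w => ?_⟩
  swap
  · show φ n w = φ n ((φ (n + 1)).symm (φ (n + 1) w))
    rw [Equiv.symm_apply_apply]
  apply T.S_loc n
  · intro d hd
    obtain ⟨w, hw, -⟩ := h4 (n + 1) d (T.D_mono n hd)
    obtain ⟨s, hs, hs'⟩ := h3 n (pc w)
    have e1 : α n w = d := by
      rw [hs' w rfl, hw, T.S_D n s hs d hd]
    have e2 : φ n w = d := by
      rw [hD n w (by rw [e1]; exact hd), e1]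
    have e3 : φ (n + 1) w = d := by
      rw [hD (n + 1) w (by rw [hw]; exact T.D_mono n hd), hw]
    show φ n ((φ (n + 1)).symm d) = d
    have e4 : (φ (n + 1)).symm d = w := by rw [← e3, Equiv.symm_apply_apply]
    rw [e4, e2]
  · intro v hv
    obtain ⟨w, hw⟩ : ∃ w, φ (n + 1) w = v := (φ (n + 1)).surjective v
    obtain ⟨s₂, hs₂, e₂⟩ := h3 n (pc w)
    have hn : α n w ∉ T.D n := by
      intro h
      have h' : α (n + 1) w ∈ T.D n := by
        rw [e₂ w rfl, T.D_S hs₂] at h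
        exact h
      have h'' : φ (n + 1) w = α (n + 1) w := hD (n + 1) w (T.D_mono n h')
      rw [hw] at h''
      rw [← h''] at h'
      exact hv h'
    have hn' : α (n + 1) w ∉ T.D n := by
      intro h
      apply hn
      rw [e₂ w rfl, T.D_S hs₂]
      exact h
    obtain ⟨s₃, hs₃, e₃⟩ := hB n w hn
    -- the general step: `r ∈ S n`, `v = r (α (n+1) w)` and `φ (n+1) = r ∘ α (n+1)` on the atom
    have step : ∀ r ∈ T.S n, v = r (α (n + 1) w) →
        (∀ u, pc u = pc w → α (n + 1) u ∈ T.B n (α (n + 1) w) → φ (n + 1) u = r (α (n + 1) u)) →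
        ∃ s ∈ T.S n, ∀ u ∈ T.B n v, ((φ (n + 1)).symm.trans (φ n)) u = s u := by
      intro r hr hrv hru
      refine ⟨s₃ * s₂ * r⁻¹, (T.S n).mul_mem ((T.S n).mul_mem hs₃ hs₂) ((T.S n).inv_mem hr), ?_⟩
      intro u hu
      have ha : r (r⁻¹ u) = u := r.apply_symm_apply u
      have hb : r⁻¹ u ∈ T.B n (α (n + 1) w) := by
        rw [← T.B_S hr hn', ha, ← hrv]
        exact hu
      have hc : s₂ (r⁻¹ u) ∈ T.B n (α n w) := by
        rw [e₂ w rfl, T.B_S hs₂ hn']
        exact hb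
      obtain ⟨u', hu', hu''⟩ := h2 n w hn _ hc
      have hd : α (n + 1) u' = r⁻¹ u := by
        have := e₂ u' hu'
        rw [hu''] at this
        exact (s₂.injective this).symm
      have he : φ (n + 1) u' = u := by
        rw [hru u' hu' (by rw [hd]; exact hb), hd, ha]
      show φ n ((φ (n + 1)).symm u) = s₃ (s₂ (r⁻¹ u))
      have hf : (φ (n + 1)).symm u = u' := by rw [← he, Equiv.symm_apply_apply]
      rw [hf, e₃ u' hu' (by rw [hu'']; exact hc), hu'']
    by_cases hc : α (n + 1) w ∈ T.D (n + 1)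
    · have hwv : α (n + 1) w = v := by rw [← hw, hD (n + 1) w hc]
      refine step 1 (T.S n).one_mem (by rw [hwv]; rfl) ?_
      intro u hu hu'
      have hd : α (n + 1) u ∈ T.D (n + 1) := T.B_D n _ hn' hc hu'
      rw [hD (n + 1) u hd]
      rfl
    · obtain ⟨s₁, hs₁, e₁⟩ := hB (n + 1) w hc
      refine step s₁ (T.S_anti n hs₁) ?_ ?_
      · rw [← hw]
        exact e₁ w rfl (T.B_self _ _ hc)
      · intro u hu hu'
        exact e₁ u hu (T.B_mono n _ hc hu')

end Pool.Agent.L7h45.UA
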